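import Pool.Agent.Y942.WJ.Stm

/-!
# From a real invariant matrix to an integer one (author helper410)
-/

set_option autoImplicit false

namespace Pool.Agent.Y410.WJ

open Pool.Agent.Y942.WJ

section

variable {G X : Type} [Group G] [Fintype G] [Fintype X] [DecidableEq X]
  (ρ σ : G →* Equiv.Perm X)

/-- the sum over the group -/
def fm {R : Type} [CommRing R] (A : X × X → R) : Matrix X X R :=
  Matrix.of fun x y => ∑ g : G, A (σ g x, ρ g y)

theorem fm_inv {R : Type} [CommRing R] (A : X × X → R) (h : G) (x y : X) :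
    fm ρ σ A (σ h x) (ρ h y) = fm ρ σ A x y := by
  unfold fm
  rw [Matrix.of_apply, Matrix.of_apply]
  refine Fintype.sum_equiv (Equiv.mulRight h) _ _ fun g => ?_
  rw [Equiv.coe_mulRight, map_mul, map_mul]
  rfl

/-- the generic determinant -/
noncomputable def gd : MvPolynomial (X × X) ℤ :=
  (fm ρ σ (fun p : X × X => (MvPolynomial.X p : MvPolynomial (X × X) ℤ))).det

theorem map_gd {R : Type} [CommRing R] (A : X × X → R) :
    MvPolynomial.eval₂Hom (Int.castRingHom R) A (gd ρ σ) = (fm ρ σ A).det := by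
  unfold gd
  rw [RingHom.map_det]
  congr 1
  ext x y
  rw [RingHom.mapMatrix_apply, Matrix.map_apply]
  unfold fm
  rw [Matrix.of_apply, Matrix.of_apply, map_sum]
  refine Finset.sum_congr rfl fun g _ => ?_
  rw [MvPolynomial.eval₂Hom_X']

end

theorem t_DESC : S_DESC := by
  rintro G X _ _ _ _ ρ σ ⟨P, hP, hinv⟩
  have h1 : ∃ A : X × X → ℤ, (fm ρ σ A).det ≠ 0 := by
    by_contra hcon
    push Not at hcon
    have h2 : gd ρ σ = 0 := by
      apply MvPolynomial.funext
      intro A
      rw [map_zero, ← hcon A, ← map_gd ρ σ A]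
      rfl
    have h3 := map_gd ρ σ (fun p : X × X => P p.1 p.2)
    rw [h2, map_zero] at h3
    have h4 : fm ρ σ (fun p : X × X => P p.1 p.2) = (Fintype.card G : ℝ) • P := by
      ext x y
      unfold fm
      rw [Matrix.of_apply, Matrix.smul_apply, Finset.sum_congr rfl fun g _ => hinv g x y,
        Finset.sum_const, Finset.card_univ, nsmul_eq_mul, smul_eq_mul]
    rw [h4, Matrix.det_smul] at h3
    have h5 : (Fintype.card G : ℝ) ≠ 0 := Nat.cast_ne_zero.2 Fintype.card_ne_zero
    exact (mul_ne_zero (pow_ne_zero _ h5) hP) h3.symm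
  obtain ⟨A, hA⟩ := h1
  exact ⟨fm ρ σ A, hA, fun g x y => fm_inv ρ σ A g x y⟩

end Pool.Agent.Y410.WJ
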